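import Mathlib

set_option autoImplicit false

/-!
The grid `[L]^(m+1)` in which every axis-parallel line carries a complete `r`-partite graph.
-/

namespace Pool.Agent.H101Z.Col

open Finset

/-- greedy colouring -/
theorem colorable_maxDegree {V : Type} [Fintype V] (G : SimpleGraph V) [DecidableRel G.Adj] :
    G.Colorable (G.maxDegree + 1) := by
  classical
  have key : ∀ S : Finset V, ∃ c : V → Fin (G.maxDegree + 1),
      ∀ u ∈ S, ∀ v ∈ S, G.Adj u v → c u ≠ c v := by
    intro S
    induction S using Finset.induction_on with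
    | empty => exact ⟨fun _ => 0, by simp⟩
    | insert w S hw ih =>
      obtain ⟨c, hc⟩ := ih
      have h1 : ((G.neighborFinset w).image c).card < (univ : Finset (Fin (G.maxDegree + 1))).card := by
        rw [card_univ, Fintype.card_fin]
        exact Nat.lt_succ_of_le (card_image_le.trans (G.degree_le_maxDegree w))
      obtain ⟨a, -, ha⟩ := exists_mem_notMem_of_card_lt_card h1
      have ha' : ∀ v, G.Adj w v → c v ≠ a := fun v hv e =>
        ha (mem_image.mpr ⟨v, (G.mem_neighborFinset w v).mpr hv, e⟩)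
      refine ⟨Function.update c w a, fun u hu v hv huv => ?_⟩
      by_cases e1 : u = w
      · subst e1
        rw [Function.update_self, Function.update_of_ne huv.ne']
        exact (ha' v huv).symm
      · by_cases e2 : v = w
        · subst e2
          rw [Function.update_self, Function.update_of_ne e1]
          exact ha' u huv.symm
        · rw [Function.update_of_ne e1, Function.update_of_ne e2]
          exact hc u ((mem_insert.mp hu).resolve_left e1) v ((mem_insert.mp hv).resolve_left e2) huv
  obtain ⟨c, hc⟩ := key univ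
  exact ⟨SimpleGraph.Coloring.mk c fun {u v} h => hc u (mem_univ _) v (mem_univ _) h⟩

variable {m L r : ℕ}

/-- two points are joined if they lie on a line in direction `i` and get different labels there -/
def grid (p : Fin (m + 1) × (Fin (m + 1) → Fin L) → Fin r) :
    SimpleGraph (Fin (m + 1) → Fin L) where
  Adj u v := ∃ i, i.removeNth u = i.removeNth v ∧ p (i, u) ≠ p (i, v)
  symm := ⟨fun _ _ ⟨i, h1, h2⟩ => ⟨i, h1.symm, h2.symm⟩⟩
  loopless := ⟨fun _ ⟨_, _, h2⟩ => h2 rfl⟩

theorem off_eq {i : Fin (m + 1)} {u v : Fin (m + 1) → Fin L}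
    (h : i.removeNth u = i.removeNth v) {j : Fin (m + 1)} (hj : j ≠ i) : u j = v j := by
  obtain ⟨k, rfl⟩ := Fin.exists_succAbove_eq hj
  exact congrFun h k

theorem ne_at {i : Fin (m + 1)} {u v : Fin (m + 1) → Fin L}
    (h : i.removeNth u = i.removeNth v) (huv : u ≠ v) : u i ≠ v i := by
  intro e
  apply huv
  funext j
  by_cases hj : j = i
  · rw [hj, e]
  · exact off_eq h hj

theorem grid_degree (p : Fin (m + 1) × (Fin (m + 1) → Fin L) → Fin r)
    [DecidableRel (grid p).Adj] : (grid p).maxDegree ≤ (m + 1) * L := by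
  refine SimpleGraph.maxDegree_le_of_forall_degree_le _ _ fun v => ?_
  have h : (grid p).neighborFinset v ⊆
      (univ : Finset (Fin (m + 1) × Fin L)).image fun x => Function.update v x.1 x.2 := by
    intro u hu
    obtain ⟨i, h1, -⟩ := ((grid p).mem_neighborFinset v u).mp hu
    refine mem_image.mpr ⟨(i, u i), mem_univ _, ?_⟩
    funext j
    by_cases hj : j = i
    · rw [hj, Function.update_self]
    · rw [Function.update_of_ne hj]
      exact off_eq h1 hj
  refine (card_le_card h).trans (card_image_le.trans ?_)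
  simp

theorem grid_free (p : Fin (m + 1) × (Fin (m + 1) → Fin L) → Fin r) :
    (⊤ : SimpleGraph (Fin (r + 2))).Free (grid p) := by
  rintro ⟨f⟩
  have adj : ∀ a b : Fin (r + 2), a ≠ b → (grid p).Adj (f a) (f b) := fun a b h =>
    f.toHom.map_adj ((SimpleGraph.top_adj a b).mpr h)
  have h01 : (0 : Fin (r + 2)) ≠ 1 := by simp
  obtain ⟨i, hi, -⟩ := adj 0 1 h01
  have hline : ∀ a, i.removeNth (f 0) = i.removeNth (f a) := by
    intro a
    by_cases h0 : a = 0
    · rw [h0]
    by_cases h1 : a = 1
    · rw [h1]; exact hi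
    obtain ⟨j, hj, -⟩ := adj 0 a (Ne.symm h0)
    obtain ⟨k, hk, -⟩ := adj 1 a (Ne.symm h1)
    by_cases hij : j = i
    · rw [← hij]; exact hj
    exfalso
    have e1 : f 0 i ≠ f 1 i := ne_at hi (adj 0 1 h01).ne
    have e2 : f 0 j ≠ f a j := ne_at hj (adj 0 a (Ne.symm h0)).ne
    have e3 : f 0 i = f a i := off_eq hj (Ne.symm hij)
    have e4 : f 0 j = f 1 j := off_eq hi hij
    by_cases hik : i = k
    · have : j ≠ k := hik ▸ hij
      exact e2 (e4.trans (off_eq hk this))
    · exact e1 (e3.trans (off_eq hk hik).symm)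
  have hinj : Function.Injective fun a => p (i, f a) := by
    intro a b hab
    by_contra h
    obtain ⟨k, hk, hp⟩ := adj a b h
    by_cases hik : i = k
    · subst hik
      exact hp hab
    · exact ne_at ((hline a).symm.trans (hline b)) (adj a b h).ne (off_eq hk hik)
  have := Fintype.card_le_of_injective _ hinj
  rw [Fintype.card_fin, Fintype.card_fin] at this
  omega

theorem exists_grid (m q r : ℕ) (hq : 0 < q) (h : q ^ 2 < r ^ (m + 1)) :
    ∃ p : Fin (m + 1) × (Fin (m + 1) → Fin (2 * q)) → Fin r, ¬ (grid p).Colorable q := by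
  classical
  have hr : 0 < r := by
    rcases Nat.eq_zero_or_pos r with h0 | h0
    · rw [h0] at h; simp at h
    · exact h0
  by_contra hall
  push Not at hall
  let Φ : ((Fin (m + 1) → Fin (2 * q)) → Fin q) ×
      (Fin (m + 1) × (Fin m → Fin (2 * q)) × Fin q → Fin r) →
      (Fin (m + 1) × (Fin (m + 1) → Fin (2 * q)) → Fin r) :=
    fun x y => x.2 (y.1, y.1.removeNth y.2, x.1 y.2)
  have hsurj : Function.Surjective Φ := by
    intro p
    obtain ⟨c⟩ := hall p
    refine ⟨(c, fun z => if hz : ∃ v, z.1.removeNth v = z.2.1 ∧ c v = z.2.2 then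
      p (z.1, hz.choose) else ⟨0, hr⟩), ?_⟩
    funext y
    have hz : ∃ v, y.1.removeNth v = y.1.removeNth y.2 ∧ c v = c y.2 := ⟨y.2, rfl, rfl⟩
    show (if hz : ∃ v, y.1.removeNth v = y.1.removeNth y.2 ∧ c v = c y.2 then
      p (y.1, hz.choose) else ⟨0, hr⟩) = p y
    rw [dif_pos hz]
    by_contra hne
    exact c.valid (show (grid p).Adj hz.choose y.2 from ⟨y.1, hz.choose_spec.1, hne⟩)
      hz.choose_spec.2
  have hcard := Fintype.card_le_of_surjective Φ hsurj
  simp only [Fintype.card_fun, Fintype.card_prod, Fintype.card_fin] at hcard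
  obtain ⟨T, hT⟩ : ∃ T, T = (2 * q) ^ m * q := ⟨_, rfl⟩
  have hT0 : T ≠ 0 := by rw [hT]; positivity
  have e1 : (2 * q) ^ (m + 1) = 2 * T := by rw [hT]; ring
  rw [e1, ← hT] at hcard
  have e2 : r ^ ((m + 1) * (2 * T)) = (r ^ (m + 1)) ^ T * r ^ ((m + 1) * T) := by ring
  rw [e2, pow_mul q] at hcard
  have h3 := Nat.le_of_mul_le_mul_right hcard (by positivity)
  have h4 := Nat.pow_lt_pow_left h hT0
  omega

end Pool.Agent.H101Z.Col
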